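import Pool.Agent.Lib.MP_80eea4_gt.Swap

/-!
The trace of a linear map of finite order on the local algebra of an equivariant polynomial map.
-/

set_option autoImplicit false

namespace Pool.Agent.Lib.MP_80eea4_gt.Own

open Pool.Agent.Lib.MP80eea4 in
theorem trace_formula {n : ℕ} (M : Matrix (Fin n) (Fin n) ℂ) (m : ℕ) (hm : m ≠ 0) (hM : M ^ m = 1)
    (f : Fin n → MvPolynomial (Fin n) ℂ)
    (hequiv : ∀ i : Fin n,
      MvPolynomial.aeval
          (fun j : Fin n => ∑ k : Fin n, M j k • (MvPolynomial.X k : MvPolynomial (Fin n) ℂ))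
          (f i)
        = ∑ j : Fin n, M i j • f j)
    (hconst : ∀ i : Fin n, MvPolynomial.constantCoeff (f i) = 0)
    (hfin : Module.Finite ℂ (MvPowerSeries (Fin n) ℂ ⧸
      Ideal.span (Set.range (fun i : Fin n => (f i : MvPowerSeries (Fin n) ℂ)))))
    (T : (MvPowerSeries (Fin n) ℂ ⧸
          Ideal.span (Set.range (fun i : Fin n => (f i : MvPowerSeries (Fin n) ℂ))))
        →ₐ[ℂ] (MvPowerSeries (Fin n) ℂ ⧸
          Ideal.span (Set.range (fun i : Fin n => (f i : MvPowerSeries (Fin n) ℂ)))))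
    (hT : ∀ i : Fin n,
        T (Ideal.Quotient.mk
            (Ideal.span (Set.range (fun i : Fin n => (f i : MvPowerSeries (Fin n) ℂ))))
            (MvPowerSeries.X i))
          = Ideal.Quotient.mk
            (Ideal.span (Set.range (fun i : Fin n => (f i : MvPowerSeries (Fin n) ℂ))))
            (∑ j : Fin n, M i j • (MvPowerSeries.X j : MvPowerSeries (Fin n) ℂ))) :
      LinearMap.trace ℂ
          (MvPowerSeries (Fin n) ℂ ⧸
            Ideal.span (Set.range (fun i : Fin n => (f i : MvPowerSeries (Fin n) ℂ))))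
          T.toLinearMap
        = ((Module.finrank ℂ
            (MvPowerSeries (Fin n) ℂ ⧸
              Ideal.span (Set.range (fun i : Fin n => (f i : MvPowerSeries (Fin n) ℂ)) ∪
                Set.range (fun i : Fin n =>
                  ∑ j : Fin n, (M - 1) i j • (MvPowerSeries.X j : MvPowerSeries (Fin n) ℂ)))))
            : ℂ) := by
  obtain ⟨Q, P, c, hPQ, -, hQM⟩ := exists_diag M m hm hM
  let F : Fin n → MvPowerSeries (Fin n) ℂ := fun i => (f i : MvPowerSeries (Fin n) ℂ)
  let a : Fin n → MvPowerSeries (Fin n) ℂ := fun i => ∑ j, M i j • MvPowerSeries.X j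
  have ha : MvPowerSeries.HasSubst a := by
    apply MvPowerSeries.hasSubst_of_constantCoeff_zero
    intro i
    simp [a, MvPowerSeries.constantCoeff_smul]
  let φ : MvPowerSeries (Fin n) ℂ →ₐ[ℂ] MvPowerSeries (Fin n) ℂ := MvPowerSeries.substAlgHom ha
  have hφx : ∀ i, φ (MvPowerSeries.X i) = ∑ j, M i j • MvPowerSeries.X j := fun i =>
    MvPowerSeries.substAlgHom_X ha i
  have hcoe : ∀ p : MvPolynomial (Fin n) ℂ,
      MvPolynomial.coeToMvPowerSeries.algHom ℂ p = (p : MvPowerSeries (Fin n) ℂ) := by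
    intro p
    rw [MvPolynomial.coeToMvPowerSeries.algHom_apply, Algebra.algebraMap_self, MvPowerSeries.map_id]
    rfl
  have hφF : ∀ i, φ (F i) = ∑ j, M i j • F j := by
    intro i
    have h1 : φ (F i) = MvPolynomial.aeval a (f i) := MvPowerSeries.substAlgHom_coe ha (f i)
    have h2 : a = fun j => MvPolynomial.coeToMvPowerSeries.algHom ℂ
        (∑ k : Fin n, M j k • (MvPolynomial.X k : MvPolynomial (Fin n) ℂ)) := by
      funext j
      rw [map_sum]
      refine Finset.sum_congr rfl fun k _ => ?_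
      rw [map_smul, hcoe, MvPolynomial.coe_X]
    rw [h1, h2, ← MvPolynomial.comp_aeval_apply, hequiv, map_sum]
    refine Finset.sum_congr rfl fun k _ => ?_
    rw [map_smul, hcoe]
  have hFm : ∀ i, F i ∈ IsLocalRing.maximalIdeal (MvPowerSeries (Fin n) ℂ) := by
    intro i
    rw [IsLocalRing.mem_maximalIdeal, mem_nonunits_iff, MvPowerSeries.isUnit_iff_constantCoeff,
      isUnit_iff_ne_zero, not_not]
    have h1 := hconst i
    rw [MvPolynomial.constantCoeff_eq] at h1
    rw [← MvPowerSeries.coeff_zero_eq_constantCoeff_apply]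
    simp only [F, MvPolynomial.coeff_coe, h1]
  have hsop := sop_of_finite (k := ℂ) (Ideal.span (Set.range F))
  have hstab : Ideal.span (Set.range F) ≤ (Ideal.span (Set.range F)).comap φ := by
    rw [Ideal.span_le]
    rintro _ ⟨i, rfl⟩
    rw [SetLike.mem_coe, Ideal.mem_comap, hφF]
    refine Ideal.sum_mem _ fun j _ => ?_
    rw [Algebra.smul_def]
    exact Ideal.mul_mem_left _ _ (Ideal.subset_span ⟨j, rfl⟩)
  have hTφ : T = Ideal.quotientMapₐ (Ideal.span (Set.range F)) φ hstab := by
    refine AlgHom.ext fun v => ?_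
    obtain ⟨s, rfl⟩ := Ideal.Quotient.mk_surjective v
    have hrhs : ∀ s, Ideal.quotientMapₐ (Ideal.span (Set.range F)) φ hstab
        (Ideal.Quotient.mk _ s) = Ideal.Quotient.mk _ (φ s) := fun s => rfl
    obtain ⟨r, hr⟩ := hsop
    obtain ⟨p, hp, hsp⟩ := exists_adjoin_sub_mem (k := ℂ) MvPowerSeries.X ps_max ps_res r s
    have h1 : (Ideal.Quotient.mk (Ideal.span (Set.range F)) s) =
        Ideal.Quotient.mk (Ideal.span (Set.range F)) p := by
      rw [Ideal.Quotient.eq]; exact hr hsp
    rw [h1, hrhs]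
    clear h1 hsp
    induction hp using Algebra.adjoin_induction with
    | mem y hy =>
      obtain ⟨i, rfl⟩ := hy
      rw [hφx]
      exact hT i
    | algebraMap c =>
      rw [AlgHom.commutes]
      exact T.commutes c
    | add y z _ _ hy hz => rw [map_add, map_add, hy, hz, map_add, map_add]
    | mul y z _ _ hy hz => rw [map_mul, map_mul, hy, hz, map_mul, map_mul]
  have key := main_abstract (k := ℂ) MvPowerSeries.X ps_max ps_reg ps_res φ M hφx F hFm hφF Q P c
    hPQ hQM hsop hstab
  rw [hTφ]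
  exact key


end Pool.Agent.Lib.MP_80eea4_gt.Own
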