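import Mathlib

set_option autoImplicit false
set_option maxHeartbeats 1000000
set_option linter.unusedSectionVars false

namespace Pool.Agent.Lib.MP80eea4

open IsLocalRing RingTheory.Sequence




theorem trace_eq_add {R V : Type*} [CommRing R] [AddCommGroup V]
    [Module R V] [Module.Finite R V]
    (W : Submodule R V) [Module.Free R W] [Module.Finite R W] [Module.Free R (V ⧸ W)]
    (e : V →ₗ[R] V) (he : W ≤ W.comap e) :
    LinearMap.trace R V e =
      LinearMap.trace R W (e.restrict he) + LinearMap.trace R (V ⧸ W) (W.mapQ W e he) := by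
  classical
  let m := Module.Free.ChooseBasisIndex R W
  let bW : Module.Basis m R W := Module.Free.chooseBasis R W
  let n := Module.Free.ChooseBasisIndex R (V ⧸ W)
  let bQ : Module.Basis n R (V ⧸ W) := Module.Free.chooseBasis R (V ⧸ W)
  let b := Module.Basis.sumQuot bW bQ
  rw [LinearMap.trace_eq_matrix_trace R b, LinearMap.trace_eq_matrix_trace R bW,
    LinearMap.trace_eq_matrix_trace R bQ]
  simp only [Matrix.trace, Matrix.diag, Fintype.sum_sum_type]
  congr 1
  · apply Finset.sum_congr rfl
    intro i _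
    simp only [LinearMap.toMatrix_apply, b, Module.Basis.sumQuot_inl]
    apply Module.Basis.sumQuot_repr_inl_of_mem
  · apply Finset.sum_congr rfl
    intro i _
    simp only [LinearMap.toMatrix_apply, b, Module.Basis.sumQuot_repr_inr]
    rw [← Module.Basis.sumQuot_inr bW bQ i, W.mapQ_apply]
    simp

theorem trace_exact {k V₁ V V₂ : Type*} [Field k] [AddCommGroup V₁] [Module k V₁]
    [AddCommGroup V] [Module k V] [AddCommGroup V₂] [Module k V₂] [Module.Finite k V]
    (i : V₁ →ₗ[k] V) (p : V →ₗ[k] V₂) (hi : Function.Injective i) (hp : Function.Surjective p)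
    (hex : LinearMap.range i = LinearMap.ker p)
    (F₁ : V₁ →ₗ[k] V₁) (F : V →ₗ[k] V) (F₂ : V₂ →ₗ[k] V₂)
    (h1 : F ∘ₗ i = i ∘ₗ F₁) (h2 : p ∘ₗ F = F₂ ∘ₗ p) :
    LinearMap.trace k V F = LinearMap.trace k V₁ F₁ + LinearMap.trace k V₂ F₂ := by
  have hW : LinearMap.ker p ≤ (LinearMap.ker p).comap F := by
    intro v hv
    simp only [Submodule.mem_comap, LinearMap.mem_ker] at hv ⊢
    have := LinearMap.congr_fun h2 v
    simp only [LinearMap.comp_apply] at this
    rw [this, hv, map_zero]
  rw [trace_eq_add (LinearMap.ker p) F hW]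
  congr 1
  · let e : V₁ ≃ₗ[k] LinearMap.ker p := (LinearEquiv.ofInjective i hi).trans (LinearEquiv.ofEq _ _ hex)
    rw [← LinearMap.trace_conj' F₁ e]
    congr 1
    ext w
    obtain ⟨v, rfl⟩ := e.surjective w
    simp only [LinearEquiv.conj_apply, LinearMap.comp_apply, LinearEquiv.coe_coe, LinearEquiv.symm_apply_apply]
    have h3 : ∀ u, ((e u : LinearMap.ker p) : V) = i u := fun u => rfl
    rw [h3, LinearMap.coe_restrict_apply, h3]
    exact LinearMap.congr_fun h1 v
  · let e : (V ⧸ LinearMap.ker p) ≃ₗ[k] V₂ := p.quotKerEquivOfSurjective hp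
    rw [← LinearMap.trace_conj' _ e]
    congr 1
    ext w
    obtain ⟨v, rfl⟩ := e.surjective w
    obtain ⟨u, rfl⟩ := Submodule.Quotient.mk_surjective _ v
    simp only [LinearEquiv.conj_apply, LinearMap.comp_apply, LinearEquiv.coe_coe, LinearEquiv.symm_apply_apply, Submodule.mapQ_apply]
    have h3 : ∀ u, e (Submodule.Quotient.mk u) = p u := fun u => rfl
    rw [h3, h3]
    exact LinearMap.congr_fun h2 u


section Step

variable {k S : Type*} [Field k] [CommRing S] [Algebra k S]

/-- trace of the endomorphism induced by `φ` on `S ⧸ I`. -/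
noncomputable def trQ (φ : S →ₐ[k] S) (I : Ideal S) (h : I ≤ I.comap φ) : k :=
  LinearMap.trace k (S ⧸ I) (Ideal.quotientMapₐ I φ h).toLinearMap

theorem trQ_congr (φ : S →ₐ[k] S) {I I' : Ideal S} (e : I = I') (h : I ≤ I.comap φ)
    (h' : I' ≤ I'.comap φ) : trQ φ I h = trQ φ I' h' := by
  subst e; rfl

theorem stable_sup_span (φ : S →ₐ[k] S) {J : Ideal S} (hJ : J ≤ J.comap φ) {a : S} {c : k}
    (ha : φ a = c • a) : J ⊔ Ideal.span {a} ≤ (J ⊔ Ideal.span {a}).comap φ := by
  refine sup_le (hJ.trans (Ideal.comap_mono le_sup_left)) ?_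
  rw [Ideal.span_le]
  intro x hx
  rw [Set.mem_singleton_iff] at hx
  subst hx
  simp only [Ideal.coe_comap, Set.mem_preimage, SetLike.mem_coe]
  rw [ha, Algebra.smul_def]
  exact Ideal.mul_mem_left _ _ (Ideal.mem_sup_right (Ideal.mem_span_singleton_self x))

theorem trace_step (φ : S →ₐ[k] S) (J : Ideal S) (a b : S) (c : k)
    (ha : φ a = c • a)
    (na : ∀ s, a * s ∈ J → s ∈ J)
    [Module.Finite k (S ⧸ (J ⊔ Ideal.span {a * b}))]
    (h1 : J ⊔ Ideal.span {a * b} ≤ (J ⊔ Ideal.span {a * b}).comap φ)
    (h2 : J ⊔ Ideal.span {b} ≤ (J ⊔ Ideal.span {b}).comap φ)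
    (h3 : J ⊔ Ideal.span {a} ≤ (J ⊔ Ideal.span {a}).comap φ) :
    trQ φ _ h1 = c * trQ φ _ h2 + trQ φ _ h3 := by
  have hi0 : (J ⊔ Ideal.span {b} : Ideal S) ≤
      Submodule.comap (LinearMap.mulLeft S a) (J ⊔ Ideal.span {a * b} : Ideal S) := by
    refine sup_le ?_ ?_
    · intro s hs
      rw [Submodule.mem_comap, LinearMap.mulLeft_apply]
      exact Ideal.mem_sup_left (Ideal.mul_mem_left _ _ hs)
    · rw [Ideal.span_le]
      intro x hx
      rw [Set.mem_singleton_iff] at hx
      subst hx
      rw [SetLike.mem_coe, Submodule.mem_comap, LinearMap.mulLeft_apply]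
      exact Ideal.mem_sup_right (Ideal.mem_span_singleton_self _)
  let i0 : (S ⧸ (J ⊔ Ideal.span {b})) →ₗ[S] (S ⧸ (J ⊔ Ideal.span {a * b})) :=
    Submodule.mapQ _ _ (LinearMap.mulLeft S a) hi0
  let i : (S ⧸ (J ⊔ Ideal.span {b})) →ₗ[k] (S ⧸ (J ⊔ Ideal.span {a * b})) :=
    i0.restrictScalars k
  have hp0 : (J ⊔ Ideal.span {a * b} : Ideal S) ≤ (J ⊔ Ideal.span {a} : Ideal S) := by
    refine sup_le le_sup_left ?_
    rw [Ideal.span_le]
    intro x hx
    rw [Set.mem_singleton_iff] at hx
    subst hx
    exact Ideal.mul_mem_right _ _ (Ideal.mem_sup_right (Ideal.mem_span_singleton_self _))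
  let p : (S ⧸ (J ⊔ Ideal.span {a * b})) →ₗ[k] (S ⧸ (J ⊔ Ideal.span {a})) :=
    (Ideal.Quotient.factorₐ k hp0).toLinearMap
  have hiapp : ∀ s : S, i (Ideal.Quotient.mk _ s) = Ideal.Quotient.mk _ (a * s) := fun s => rfl
  have hpapp : ∀ s : S, p (Ideal.Quotient.mk _ s) = Ideal.Quotient.mk _ s := fun s => rfl
  have key := trace_exact i p ?_ ?_ ?_
    (c • (Ideal.quotientMapₐ (J ⊔ Ideal.span {b}) φ h2).toLinearMap)
    (Ideal.quotientMapₐ (J ⊔ Ideal.span {a * b}) φ h1).toLinearMap
    (Ideal.quotientMapₐ (J ⊔ Ideal.span {a}) φ h3).toLinearMap ?_ ?_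
  · rw [map_smul, smul_eq_mul] at key
    exact key
  · -- injective
    rw [injective_iff_map_eq_zero]
    intro v hv
    obtain ⟨s, rfl⟩ := Ideal.Quotient.mk_surjective v
    rw [hiapp, Ideal.Quotient.eq_zero_iff_mem] at hv
    rw [Ideal.Quotient.eq_zero_iff_mem]
    obtain ⟨j, hj, x, hx, hjx⟩ := Submodule.mem_sup.mp hv
    obtain ⟨u, rfl⟩ := Ideal.mem_span_singleton'.mp hx
    have h4 : a * (s - b * u) ∈ J := by
      have : a * (s - b * u) = j := by
        have : a * s = j + u * (a * b) := hjx.symm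
        rw [mul_sub, this]; ring
      rw [this]; exact hj
    have h5 := na _ h4
    have h6 : s = (s - b * u) + b * u := by ring
    rw [h6]
    exact Ideal.add_mem _ (Ideal.mem_sup_left h5)
      (Ideal.mul_mem_right _ _ (Ideal.mem_sup_right (Ideal.mem_span_singleton_self _)))
  · intro v
    obtain ⟨s, rfl⟩ := Ideal.Quotient.mk_surjective v
    exact ⟨Ideal.Quotient.mk _ s, rfl⟩
  · ext v
    constructor
    · rintro ⟨w, rfl⟩
      obtain ⟨s, rfl⟩ := Ideal.Quotient.mk_surjective w
      rw [LinearMap.mem_ker, hiapp, hpapp, Ideal.Quotient.eq_zero_iff_mem]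
      exact Ideal.mul_mem_right _ _ (Ideal.mem_sup_right (Ideal.mem_span_singleton_self _))
    · intro hv
      obtain ⟨s, rfl⟩ := Ideal.Quotient.mk_surjective v
      rw [LinearMap.mem_ker, hpapp, Ideal.Quotient.eq_zero_iff_mem] at hv
      obtain ⟨j, hj, x, hx, hjx⟩ := Submodule.mem_sup.mp hv
      obtain ⟨u, rfl⟩ := Ideal.mem_span_singleton'.mp hx
      refine ⟨Ideal.Quotient.mk _ u, ?_⟩
      rw [hiapp, Ideal.Quotient.eq]
      have : a * u - s = - j := by rw [← hjx]; ring
      rw [this]
      exact Ideal.mem_sup_left (J.neg_mem hj)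
  · refine LinearMap.ext fun v => ?_
    obtain ⟨s, rfl⟩ := Ideal.Quotient.mk_surjective v
    have e1 : ∀ x : S, (Ideal.quotientMapₐ (J ⊔ Ideal.span {a * b}) φ h1).toLinearMap
        (Ideal.Quotient.mk _ x) = Ideal.Quotient.mk _ (φ x) := fun x => rfl
    have e2 : ∀ x : S, (Ideal.quotientMapₐ (J ⊔ Ideal.span {b}) φ h2).toLinearMap
        (Ideal.Quotient.mk _ x) = Ideal.Quotient.mk _ (φ x) := fun x => rfl
    rw [LinearMap.comp_apply, LinearMap.comp_apply, hiapp, e1, LinearMap.smul_apply, e2, map_smul,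
      hiapp, map_mul, ha, smul_mul_assoc]
    rfl
  · refine LinearMap.ext fun v => ?_
    obtain ⟨s, rfl⟩ := Ideal.Quotient.mk_surjective v
    have e1 : ∀ x : S, (Ideal.quotientMapₐ (J ⊔ Ideal.span {a * b}) φ h1).toLinearMap
        (Ideal.Quotient.mk _ x) = Ideal.Quotient.mk _ (φ x) := fun x => rfl
    have e2 : ∀ x : S, (Ideal.quotientMapₐ (J ⊔ Ideal.span {a}) φ h3).toLinearMap
        (Ideal.Quotient.mk _ x) = Ideal.Quotient.mk _ (φ x) := fun x => rfl
    rw [LinearMap.comp_apply, LinearMap.comp_apply, e1, hpapp, hpapp, e2]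

theorem trace_swap (φ : S →ₐ[k] S) (J : Ideal S) (hJ : J ≤ J.comap φ) (a b : S) (c : k)
    (ha : φ a = c • a) (hb : φ b = c • b) (hc : c ≠ 1)
    (na : ∀ s, a * s ∈ J → s ∈ J) (nb : ∀ s, b * s ∈ J → s ∈ J)
    [Module.Finite k (S ⧸ (J ⊔ Ideal.span {a * b}))]
    (h2 : J ⊔ Ideal.span {b} ≤ (J ⊔ Ideal.span {b}).comap φ)
    (h3 : J ⊔ Ideal.span {a} ≤ (J ⊔ Ideal.span {a}).comap φ) :
    trQ φ _ h2 = trQ φ _ h3 := by
  have hab : φ (a * b) = (c * c) • (a * b) := by
    rw [map_mul, ha, hb, smul_mul_smul_comm]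
  have h1 := stable_sup_span φ hJ hab
  have e1 := trace_step φ J a b c ha na h1 h2 h3
  have hba : φ (b * a) = (c * c) • (b * a) := by
    rw [mul_comm b a, hab]
  have h1' := stable_sup_span φ hJ hba
  have : Module.Finite k (S ⧸ (J ⊔ Ideal.span {b * a})) := by
    rw [mul_comm b a]; infer_instance
  have e2 := trace_step φ J b a c hb nb h1' h3 h2
  have e3 : trQ φ _ h1 = trQ φ _ h1' := trQ_congr φ (by rw [mul_comm a b]) h1 h1'
  rw [e1, e2] at e3
  have e4 : (1 - c) * (trQ φ _ h2 - trQ φ _ h3) = 0 := by linear_combination -e3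
  rcases mul_eq_zero.mp e4 with h | h
  · exact absurd (by linear_combination -h) hc
  · linear_combination h

end Step




section Generic

variable {k S : Type*} [Field k] [CommRing S] [Algebra k S] [IsLocalRing S] [IsNoetherianRing S]

theorem eq_max_of_prime_of_pow_le {P : Ideal S} (hP : P.IsPrime) {r : ℕ}
    (h : (maximalIdeal S) ^ r ≤ P) : P = maximalIdeal S := by
  apply le_antisymm (le_maximalIdeal hP.ne_top)
  exact Ideal.IsPrime.le_of_pow_le h

theorem exists_pow_le_of_forall_prime {I : Ideal S}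
    (h : ∀ Q : Ideal S, Q.IsPrime → I ≤ Q → Q = maximalIdeal S) :
    ∃ r : ℕ, (maximalIdeal S) ^ r ≤ I := by
  apply Ideal.exists_pow_le_of_le_radical_of_fg
  · rw [Ideal.radical_eq_sInf]
    refine le_sInf ?_
    rintro Q ⟨hQ1, hQ2⟩
    rw [h Q hQ2 hQ1]
  · exact IsNoetherian.noetherian _

/-- For all but finitely many scalars `t`, `J + (a + t b)` is still primary to the maximal ideal. -/
theorem generic_finite (J : Ideal S) (a b : S) (hb : b ∈ maximalIdeal S)
    (r : ℕ) (hr : (maximalIdeal S) ^ r ≤ J ⊔ Ideal.span {a}) :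
    {t : k | ¬ ∃ r' : ℕ, (maximalIdeal S) ^ r' ≤ J ⊔ Ideal.span {a + t • b}}.Finite := by
  have hfin : (⋃ P ∈ {P : Ideal S | P ∈ J.minimalPrimes ∧ P ≠ maximalIdeal S},
      {t : k | a + t • b ∈ P}).Finite := by
    apply Set.Finite.biUnion
    · exact (J.finite_minimalPrimes_of_isNoetherianRing).subset (fun P hP => hP.1)
    · rintro P ⟨hP, hPm⟩
      apply Set.Subsingleton.finite
      intro t ht t' ht'
      simp only [Set.mem_ofPred_eq] at ht ht'
      by_contra hne
      apply hPm
      have hPp : P.IsPrime := hP.isPrime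
      have h1 : (t - t') • b ∈ P := by
        have : (t - t') • b = (a + t • b) - (a + t' • b) := by rw [sub_smul]; ring
        rw [this]; exact P.sub_mem ht ht'
      have h2 : b ∈ P := by
        have h3 : b = (t - t')⁻¹ • ((t - t') • b) := by
          rw [smul_smul, inv_mul_cancel₀ (sub_ne_zero.mpr hne), one_smul]
        rw [h3, Algebra.smul_def]
        exact P.mul_mem_left _ h1
      have h4 : a ∈ P := by
        have : a = (a + t • b) - t • b := by ring
        rw [this]
        refine P.sub_mem ht ?_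
        rw [Algebra.smul_def]
        exact P.mul_mem_left _ h2
      apply eq_max_of_prime_of_pow_le hPp (r := r)
      refine hr.trans (sup_le hP.le ?_)
      rw [Ideal.span_le, Set.singleton_subset_iff]
      exact h4
  refine hfin.subset ?_
  intro t ht
  simp only [Set.mem_ofPred_eq] at ht
  by_contra hcon
  apply ht
  apply exists_pow_le_of_forall_prime
  intro Q hQ hIQ
  obtain ⟨P, hP, hPQ⟩ := Ideal.exists_minimalPrimes_le (le_sup_left.trans hIQ)
  have hPp : P.IsPrime := hP.isPrime
  have htQ : a + t • b ∈ Q := hIQ (Ideal.mem_sup_right (Ideal.mem_span_singleton_self _))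
  have hQm : Q ≤ maximalIdeal S := le_maximalIdeal hQ.ne_top
  by_contra hQne
  have hPne : P ≠ maximalIdeal S := by
    rintro rfl
    exact hQne (le_antisymm hQm hPQ)
  have hPQ' : P < Q := by
    refine lt_of_le_of_ne hPQ ?_
    rintro rfl
    apply hcon
    simp only [Set.mem_iUnion]
    exact ⟨P, ⟨hP, hPne⟩, htQ⟩
  have hQm' : Q < maximalIdeal S := lt_of_le_of_ne hQm hQne
  have haPm : P ⊔ Ideal.span {a} ≤ maximalIdeal S ∨ True := Or.inr trivial
  have ha : a ∈ maximalIdeal S := by
    have : a = (a + t • b) - t • b := by ring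
    rw [this]
    refine (maximalIdeal S).sub_mem (hQm htQ) ?_
    rw [Algebra.smul_def]
    exact (maximalIdeal S).mul_mem_left _ hb
  have hmin : maximalIdeal S ∈ (P ⊔ Ideal.span {a}).minimalPrimes := by
    refine ⟨⟨(maximalIdeal.isMaximal S).isPrime, sup_le (le_maximalIdeal hPp.ne_top) ?_⟩, ?_⟩
    · rw [Ideal.span_le, Set.singleton_subset_iff]; exact ha
    · rintro Q' ⟨hQ', hQ'2⟩ _
      have h5 : (maximalIdeal S) ^ r ≤ Q' :=
        hr.trans ((sup_le_sup_right hP.le _).trans hQ'2)
      rw [eq_max_of_prime_of_pow_le hQ' h5]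
  have hht := Ideal.map_height_le_one_of_mem_minimalPrimes hmin
  have hker : RingHom.ker (Ideal.Quotient.mk P) = P := Ideal.mk_ker
  have hPb : (P.map (Ideal.Quotient.mk P)) = ⊥ := Ideal.map_quotient_self P
  have hpQ : (Q.map (Ideal.Quotient.mk P)).IsPrime :=
    Ideal.map_isPrime_of_surjective Ideal.Quotient.mk_surjective (by rw [hker]; exact hPQ)
  have hpM : ((maximalIdeal S).map (Ideal.Quotient.mk P)).IsPrime :=
    Ideal.map_isPrime_of_surjective Ideal.Quotient.mk_surjective
      (by rw [hker]; exact le_maximalIdeal hPp.ne_top)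
  have hcomap : ∀ I : Ideal S, P ≤ I → (I.map (Ideal.Quotient.mk P)).comap (Ideal.Quotient.mk P) = I := by
    intro I hI
    rw [Ideal.comap_map_of_surjective _ Ideal.Quotient.mk_surjective, sup_eq_left]
    rw [← RingHom.ker_eq_comap_bot, hker]; exact hI
  have hlt1 : (⊥ : Ideal (S ⧸ P)) < Q.map (Ideal.Quotient.mk P) := by
    rw [bot_lt_iff_ne_bot]
    intro h6
    have := hcomap Q hPQ
    rw [h6, ← RingHom.ker_eq_comap_bot, hker] at this
    exact hPQ'.ne this
  have hlt2 : Q.map (Ideal.Quotient.mk P) < (maximalIdeal S).map (Ideal.Quotient.mk P) := by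
    refine lt_of_le_of_ne (Ideal.map_mono hQm) ?_
    intro h6
    have h7 := hcomap Q hPQ
    rw [h6, hcomap _ (le_maximalIdeal hPp.ne_top)] at h7
    exact hQne h7.symm
  have hb1 := Ideal.height_add_one_le_of_lt_of_isPrime hlt1
  have hb2 := Ideal.height_add_one_le_of_lt_of_isPrime hlt2
  have : (2 : ℕ∞) ≤ 1 := by
    calc (2 : ℕ∞) = (0 + 1) + 1 := by norm_num
      _ ≤ ((⊥ : Ideal (S ⧸ P)).height + 1) + 1 := by gcongr; exact zero_le
      _ ≤ (Q.map (Ideal.Quotient.mk P)).height + 1 := by gcongr
      _ ≤ _ := hb2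
      _ ≤ 1 := hht
  exact absurd this (by norm_num)

end Generic




section SOP

variable {S : Type*} [CommRing S] {n : ℕ}

/-- the list of the entries of `a` at the positions other than `i`. -/
def others (a : Fin n → S) (i : Fin n) : List S := ((List.finRange n).erase i).map a

theorem perm_others (a : Fin n → S) (i : Fin n) :
    List.Perm ((List.finRange n).map a) (others a i ++ [a i]) := by
  have h : List.Perm (List.finRange n) ((List.finRange n).erase i ++ [i]) :=
    (List.perm_cons_erase (List.mem_finRange i)).trans (List.perm_append_singleton _ _).symm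
  have h2 := h.map a
  rwa [List.map_append, List.map_singleton] at h2

theorem others_update (a : Fin n → S) (i : Fin n) (c : S) :
    others (Function.update a i c) i = others a i := by
  unfold others
  apply List.map_congr_left
  intro j hj
  have : j ≠ i := by
    rintro rfl
    exact (List.nodup_finRange n).not_mem_erase hj
  rw [Function.update_of_ne this]

/-- ideal generated by the entries other than the `i`-th one. -/
def oI (a : Fin n → S) (i : Fin n) : Ideal S := Ideal.ofList (others a i)

theorem oI_update (a : Fin n → S) (i : Fin n) (c : S) :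
    oI (Function.update a i c) i = oI a i := by
  unfold oI; rw [others_update]

theorem ofList_map_finRange (a : Fin n → S) :
    Ideal.ofList ((List.finRange n).map a) = Ideal.span (Set.range a) := by
  unfold Ideal.ofList
  congr 1
  ext x
  simp [eq_comm]

theorem span_range_eq (a : Fin n → S) (i : Fin n) :
    Ideal.span (Set.range a) = oI a i ⊔ Ideal.span {a i} := by
  rw [← ofList_map_finRange, oI, ← Ideal.ofList_singleton, ← Ideal.ofList_append]
  unfold Ideal.ofList
  congr 1
  ext x
  exact (perm_others a i).mem_iff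

/-- the entries other than the `i`-th are in `oI`. -/
theorem mem_oI (a : Fin n → S) {i j : Fin n} (h : j ≠ i) : a j ∈ oI a i := by
  apply Ideal.subset_span
  simp only [others, Set.mem_ofPred_eq, List.mem_map]
  exact ⟨j, (List.mem_erase_of_ne h).mpr (List.mem_finRange j), rfl⟩

theorem oI_le_iff (a : Fin n → S) (i : Fin n) (I : Ideal S) :
    oI a i ≤ I ↔ ∀ j, j ≠ i → a j ∈ I := by
  constructor
  · intro h j hj
    exact h (mem_oI a hj)
  · intro h
    unfold oI Ideal.ofList
    rw [Ideal.span_le]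
    intro x hx
    simp only [others, Set.mem_ofPred_eq, List.mem_map] at hx
    obtain ⟨j, hj, rfl⟩ := hx
    refine h j ?_
    rintro rfl
    exact (List.nodup_finRange n).not_mem_erase hj

variable [IsLocalRing S]

/-- `a` is a system of parameters: entries in the maximal ideal, generating a primary ideal. -/
def SOP (a : Fin n → S) : Prop :=
  (∀ i, a i ∈ maximalIdeal S) ∧ ∃ r : ℕ, (maximalIdeal S) ^ r ≤ Ideal.span (Set.range a)

/-- `a` is a weakly regular sequence. -/
def Reg (a : Fin n → S) : Prop := IsWeaklyRegular S ((List.finRange n).map a)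

variable [IsNoetherianRing S]

theorem reg_iff (a : Fin n → S) (ha : ∀ i, a i ∈ maximalIdeal S) (i : Fin n) :
    Reg a ↔ IsWeaklyRegular S (others a i) ∧ ∀ s, a i * s ∈ oI a i → s ∈ oI a i := by
  have h1 : Reg a ↔ IsWeaklyRegular S (others a i ++ [a i]) := by
    constructor
    · intro h
      refine IsLocalRing.isWeaklyRegular_of_perm_of_subset_maximalIdeal h (perm_others a i) ?_
      intro r hr
      simp only [List.mem_map] at hr
      obtain ⟨j, -, rfl⟩ := hr
      exact ha j
    · intro h
      refine IsLocalRing.isWeaklyRegular_of_perm_of_subset_maximalIdeal h (perm_others a i).symm ?_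
      intro r hr
      have hr' := (perm_others a i).mem_iff.mpr hr
      simp only [List.mem_map] at hr'
      obtain ⟨j, -, rfl⟩ := hr'
      exact ha j
  rw [h1, isWeaklyRegular_append_iff, isWeaklyRegular_singleton_iff,
    isSMulRegular_quotient_iff_mem_of_smul_mem]
  simp only [smul_eq_mul, Ideal.mul_top]
  rfl

theorem Reg.nzd {a : Fin n → S} (h : Reg a) (ha : ∀ i, a i ∈ maximalIdeal S) (i : Fin n) :
    ∀ s, a i * s ∈ oI a i → s ∈ oI a i := ((reg_iff a ha i).mp h).2

/-- the key step: being regular is preserved by changing one entry of a system of parameters. -/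
theorem reg_update {a : Fin n → S} (h : Reg a) (ha : SOP a) (i : Fin n) (c : S)
    (hc : SOP (Function.update a i c)) : Reg (Function.update a i c) := by
  rw [reg_iff _ hc.1 i, others_update, oI_update, Function.update_self]
  obtain ⟨h1, h2⟩ := (reg_iff a ha.1 i).mp h
  refine ⟨h1, ?_⟩
  intro s hs
  obtain ⟨r, hr⟩ := hc.2
  rw [span_range_eq _ i, oI_update, Function.update_self] at hr
  have h3 : (a i) ^ r ∈ oI a i ⊔ Ideal.span {c} := hr (Ideal.pow_mem_pow (ha.1 i) r)
  obtain ⟨j, hj, x, hx, hjx⟩ := Submodule.mem_sup.mp h3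
  obtain ⟨u, rfl⟩ := Ideal.mem_span_singleton'.mp hx
  have h4 : (a i) ^ r * s ∈ oI a i := by
    rw [← hjx]
    have : (j + u * c) * s = s * j + u * (c * s) := by ring
    rw [this]
    exact Ideal.add_mem _ (Ideal.mul_mem_left _ _ hj) (Ideal.mul_mem_left _ _ hs)
  have h5 : ∀ m : ℕ, (a i) ^ m * s ∈ oI a i → s ∈ oI a i := by
    intro m
    induction m with
    | zero => intro h; simpa using h
    | succ m ih =>
      intro h
      apply ih
      apply h2
      rw [pow_succ'] at h
      rw [← mul_assoc]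
      exact h
  exact h5 r h4

end SOP


section Chain

variable {k S : Type*} [Field k] [CommRing S] [Algebra k S] [IsLocalRing S]
  [IsNoetherianRing S] {n : ℕ}

theorem smul_mem_max (t : k) {x : S} (hx : x ∈ maximalIdeal S) : t • x ∈ maximalIdeal S := by
  rw [Algebra.smul_def]
  exact (maximalIdeal S).mul_mem_left _ hx

theorem sop_update_iff (a : Fin n → S) (i : Fin n) (c : S) (ha : ∀ j, a j ∈ maximalIdeal S)
    (hc : c ∈ maximalIdeal S) :
    SOP (Function.update a i c) ↔ ∃ r : ℕ, (maximalIdeal S) ^ r ≤ oI a i ⊔ Ideal.span {c} := by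
  unfold SOP
  rw [span_range_eq _ i, oI_update, Function.update_self]
  constructor
  · exact fun h => h.2
  · intro h
    refine ⟨?_, h⟩
    intro j
    by_cases hj : j = i
    · subst hj; rwa [Function.update_self]
    · rw [Function.update_of_ne hj]; exact ha j

theorem generic_update_left (a b : Fin n → S) (ha : SOP a) (hb : ∀ j, b j ∈ maximalIdeal S)
    (i : Fin n) : {t : k | ¬ SOP (Function.update a i (a i + t • b i))}.Finite := by
  obtain ⟨r, hr⟩ := ha.2
  rw [span_range_eq _ i] at hr
  refine (generic_finite (k := k) (oI a i) (a i) (b i) (hb i) r hr).subset ?_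
  intro t ht hcon
  apply ht
  rw [sop_update_iff _ _ _ ha.1 (Ideal.add_mem _ (ha.1 i) (smul_mem_max t (hb i)))]
  exact hcon

theorem generic_update_right (a b : Fin n → S) (hb : SOP b) (ha : ∀ j, a j ∈ maximalIdeal S)
    (i : Fin n) : {t : k | ¬ SOP (Function.update b i (a i + t • b i))}.Finite := by
  obtain ⟨r, hr⟩ := hb.2
  rw [span_range_eq _ i] at hr
  have h1 := generic_finite (k := k) (oI b i) (b i) (a i) (ha i) r hr
  refine (Set.Finite.union (Set.finite_singleton (0 : k)) (h1.image (fun t => t⁻¹))).subset ?_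
  intro t ht
  by_cases h0 : t = 0
  · left; exact h0
  · right
    refine ⟨t⁻¹, ?_, inv_inv t⟩
    intro hcon
    apply ht
    rw [sop_update_iff _ _ _ hb.1 (Ideal.add_mem _ (ha i) (smul_mem_max t (hb.1 i)))]
    obtain ⟨r', hr'⟩ := hcon
    refine ⟨r', ?_⟩
    have h2 : Ideal.span {a i + t • b i} = Ideal.span {b i + t⁻¹ • a i} := by
      have h3 : a i + t • b i = (algebraMap k S t) * (b i + t⁻¹ • a i) := by
        rw [← Algebra.smul_def, smul_add, smul_smul, mul_inv_cancel₀ h0, one_smul, add_comm]
      rw [h3, Ideal.span_singleton_mul_left_unit]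
      exact (IsUnit.mk0 t h0).map (algebraMap k S)
    rw [h2]
    exact hr'

theorem chain_induction [Infinite k] (D0 : Finset (Fin n)) (good : (Fin n → S) → Prop)
    (C : (Fin n → S) → (Fin n → S) → Prop)
    (hrefl : ∀ a, C a a) (htrans : ∀ a b c, C a b → C b c → C a c)
    (hstep : ∀ a i c, i ∈ D0 → SOP a → good a → SOP (Function.update a i c) →
      good (Function.update a i c) → C a (Function.update a i c) ∧ C (Function.update a i c) a)
    (hlin : ∀ a b i (t : k), good a → good b → good (Function.update a i (a i + t • b i)) ∧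
      good (Function.update b i (a i + t • b i))) :
    ∀ D : Finset (Fin n), D ⊆ D0 → ∀ a b : Fin n → S, SOP a → SOP b → good a → good b →
      (∀ i, i ∉ D → a i = b i) → C a b := by
  intro D
  induction D using Finset.induction_on with
  | empty =>
    intro _ a b _ _ _ _ h
    have : a = b := funext fun i => h i (by simp)
    rw [this]
    exact hrefl b
  | insert i D hi ih =>
    intro hD a b ha hb ga gb hab
    have hfin := (generic_update_left (k := k) a b ha hb.1 i).union
      (generic_update_right (k := k) a b hb ha.1 i)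
    obtain ⟨t, ht⟩ := hfin.exists_notMem
    simp only [Set.mem_union, Set.mem_ofPred_eq, not_or, not_not] at ht
    obtain ⟨ht1, ht2⟩ := ht
    obtain ⟨g1, g2⟩ := hlin a b i t ga gb
    have hi0 : i ∈ D0 := hD (Finset.mem_insert_self i D)
    have s1 := (hstep a i _ hi0 ha ga ht1 g1).1
    have s2 := (hstep b i _ hi0 hb gb ht2 g2).2
    have s3 := ih ((Finset.subset_insert i D).trans hD) _ _ ht1 ht2 g1 g2 (by
      intro j hj
      by_cases hji : j = i
      · subst hji; rw [Function.update_self, Function.update_self]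
      · rw [Function.update_of_ne hji, Function.update_of_ne hji]
        apply hab
        rw [Finset.mem_insert, not_or]
        exact ⟨hji, hj⟩)
    exact htrans _ _ _ s1 (htrans _ _ _ s3 s2)

/-- Every system of parameters is regular as soon as one is. -/
theorem reg_of_sop [Infinite k] {a b : Fin n → S} (ha : SOP a) (hreg : Reg a) (hb : SOP b) :
    Reg b := by
  have := chain_induction (k := k) (S := S) (Finset.univ : Finset (Fin n)) (fun _ => True)
    (fun a b => Reg a ↔ Reg b) (fun a => Iff.rfl) (fun a b c h1 h2 => h1.trans h2) ?_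
    (fun _ _ _ _ _ _ => ⟨trivial, trivial⟩) Finset.univ (Finset.Subset.refl _) a b ha hb trivial
    trivial (by simp)
  · exact this.mp hreg
  · intro a i c _ ha _ hc _
    have h : Reg a ↔ Reg (Function.update a i c) := by
      constructor
      · intro h; exact reg_update h ha i c hc
      · intro h
        have h2 : Function.update (Function.update a i c) i (a i) = a := by
          rw [Function.update_idem, Function.update_eq_self]
        have h3 := reg_update h hc i (a i) (by rw [h2]; exact ha)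
        rwa [h2] at h3
    exact ⟨h, h.symm⟩

theorem pow_le_sup_mul {J : Ideal S} {a b : S} {r s : ℕ}
    (ha : (maximalIdeal S) ^ r ≤ J ⊔ Ideal.span {a})
    (hb : (maximalIdeal S) ^ s ≤ J ⊔ Ideal.span {b}) :
    (maximalIdeal S) ^ (r + s) ≤ J ⊔ Ideal.span {a * b} := by
  rw [pow_add]
  refine (Ideal.mul_mono ha hb).trans ?_
  rw [Ideal.sup_mul, Ideal.mul_sup (Ideal.span {a}), Ideal.span_singleton_mul_span_singleton]
  refine sup_le ?_ (sup_le ?_ le_sup_right)
  · exact Ideal.mul_le_left.trans le_sup_left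
  · exact Ideal.mul_le_right.trans le_sup_left

theorem range_stable (φ : S →ₐ[k] S) (a : Fin n → S) (c : Fin n → k)
    (h : ∀ i, φ (a i) = c i • a i) :
    Ideal.span (Set.range a) ≤ (Ideal.span (Set.range a)).comap φ := by
  rw [Ideal.span_le]
  rintro _ ⟨i, rfl⟩
  simp only [Ideal.coe_comap, Set.mem_preimage, SetLike.mem_coe]
  rw [h, Algebra.smul_def]
  exact Ideal.mul_mem_left _ _ (Ideal.subset_span ⟨i, rfl⟩)

/-- Main abstract theorem: the trace on the quotient by a system of parameters depends only on the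
weights and on the entries of weight one. -/
theorem trace_eq_of_sop [Infinite k] (φ : S →ₐ[k] S) (c : Fin n → k)
    (hfin : ∀ r : ℕ, Module.Finite k (S ⧸ (maximalIdeal S) ^ r))
    {x a b : Fin n → S} (hx : SOP x) (hxr : Reg x)
    (ha : SOP a) (hb : SOP b) (ga : ∀ i, φ (a i) = c i • a i) (gb : ∀ i, φ (b i) = c i • b i)
    (hab : ∀ i, c i = 1 → a i = b i)
    (h1 : Ideal.span (Set.range a) ≤ (Ideal.span (Set.range a)).comap φ)
    (h2 : Ideal.span (Set.range b) ≤ (Ideal.span (Set.range b)).comap φ) :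
    trQ φ _ h1 = trQ φ _ h2 := by
  classical
  have := chain_induction (k := k) (S := S) (Finset.univ.filter (fun i => c i ≠ 1))
    (fun a => ∀ i, φ (a i) = c i • a i)
    (fun a b => (∀ i, φ (a i) = c i • a i) → (∀ i, φ (b i) = c i • b i) ∧
      ∀ h1 : Ideal.span (Set.range a) ≤ (Ideal.span (Set.range a)).comap φ,
      ∀ h2 : Ideal.span (Set.range b) ≤ (Ideal.span (Set.range b)).comap φ,
        trQ φ _ h1 = trQ φ _ h2) ?_ ?_ ?_ ?_ (Finset.univ.filter (fun i => c i ≠ 1))
        (Finset.Subset.refl _) a b ha hb ga gb ?_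
  · exact (this ga).2 h1 h2
  · intro a ga; exact ⟨ga, fun h1 h2 => rfl⟩
  · intro a b d h1 h2 ga
    obtain ⟨gb, e1⟩ := h1 ga
    obtain ⟨gd, e2⟩ := h2 gb
    exact ⟨gd, fun s1 s3 => (e1 s1 (range_stable φ b c gb)).trans (e2 _ s3)⟩
  · intro a i d hi ha ga hd gd
    have hci : c i ≠ 1 := (Finset.mem_filter.mp hi).2
    have hJ : oI a i ≤ (oI a i).comap φ := by
      rw [oI_le_iff]
      intro j hj
      rw [Ideal.mem_comap, ga j, Algebra.smul_def]
      exact Ideal.mul_mem_left _ _ (mem_oI a hj)
    have gdi : φ d = c i • d := by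
      have := gd i
      rwa [Function.update_self] at this
    have na := (reg_of_sop (k := k) hx hxr ha).nzd ha.1 i
    have nd := (reg_of_sop (k := k) hx hxr hd).nzd hd.1 i
    rw [oI_update, Function.update_self] at nd
    obtain ⟨r, hr⟩ := ha.2
    obtain ⟨s, hs⟩ := hd.2
    rw [span_range_eq _ i] at hr
    rw [span_range_eq _ i, oI_update, Function.update_self] at hs
    have h3 := pow_le_sup_mul hr hs
    have := hfin (r + s)
    have : Module.Finite k (S ⧸ (oI a i ⊔ Ideal.span {a i * d})) :=
      Module.Finite.of_surjective (Ideal.Quotient.factorₐ k h3).toLinearMap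
        (Ideal.Quotient.factor_surjective h3)
    have key := trace_swap φ (oI a i) hJ (a i) d (c i) (ga i) gdi hci na nd
      (stable_sup_span φ hJ gdi) (stable_sup_span φ hJ (ga i))
    have e : ∀ h1 : Ideal.span (Set.range a) ≤ (Ideal.span (Set.range a)).comap φ,
      ∀ h2 : Ideal.span (Set.range (Function.update a i d)) ≤
        (Ideal.span (Set.range (Function.update a i d))).comap φ,
        trQ φ _ h1 = trQ φ _ h2 := by
      intro h1 h2
      rw [trQ_congr φ (span_range_eq a i) h1 (stable_sup_span φ hJ (ga i)), ← key]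
      exact trQ_congr φ (by rw [span_range_eq _ i, oI_update, Function.update_self]) _ _
    exact ⟨fun _ => ⟨gd, e⟩, fun _ => ⟨ga, fun h1 h2 => (e h2 h1).symm⟩⟩
  · intro a b i t ga gb
    constructor
    · intro j
      by_cases hj : j = i
      · subst hj
        rw [Function.update_self, map_add, map_smul, ga, gb, smul_add, smul_comm]
      · rw [Function.update_of_ne hj, ga]
    · intro j
      by_cases hj : j = i
      · subst hj
        rw [Function.update_self, map_add, map_smul, ga, gb, smul_add, smul_comm]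
      · rw [Function.update_of_ne hj, gb]
  · intro i hi
    apply hab
    simpa using hi

end Chain




section PS

variable {σ k : Type*} [Field k] [DecidableEq σ]

open MvPowerSeries in
theorem mem_span_X_iff (A : Finset σ) : ∀ s : MvPowerSeries σ k,
    s ∈ Ideal.span ((MvPowerSeries.X : σ → MvPowerSeries σ k) '' (A : Set σ)) ↔
      ∀ e : σ →₀ ℕ, (∀ i ∈ A, e i = 0) → coeff e s = 0 := by
  induction A using Finset.induction_on with
  | empty =>
    intro s
    simp only [Finset.coe_empty, Set.image_empty, Ideal.span_empty, Ideal.mem_bot]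
    constructor
    · rintro rfl; simp
    · intro h; ext e; simpa using h e (by simp)
  | insert i A hi ih =>
    intro s
    rw [Finset.coe_insert, Set.image_insert_eq, Ideal.span_insert]
    constructor
    · intro h e he
      obtain ⟨x, hx, y, hy, rfl⟩ := Submodule.mem_sup.mp h
      obtain ⟨u, rfl⟩ := Ideal.mem_span_singleton'.mp hx
      rw [map_add, (ih y).mp hy e (fun j hj => he j (Finset.mem_insert_of_mem hj)), add_zero,
        X_def, coeff_mul_monomial, if_neg]
      intro hle
      have := hle i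
      rw [Finsupp.single_eq_same, he i (Finset.mem_insert_self i A)] at this
      omega
    · intro h
      let s0 : MvPowerSeries σ k := fun e => if e i = 0 then coeff e s else 0
      let s1 : MvPowerSeries σ k := fun e => coeff (e + Finsupp.single i 1) s
      have hs0 : ∀ e, coeff e s0 = if e i = 0 then coeff e s else 0 := fun e => rfl
      have hs1 : ∀ e, coeff e s1 = coeff (e + Finsupp.single i 1) s := fun e => rfl
      have hs : s = s1 * X i + s0 := by
        ext e
        rw [map_add, hs0, X_def, coeff_mul_monomial, hs1, mul_one]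
        by_cases he : e i = 0
        · rw [if_pos he, if_neg, zero_add]
          intro hle
          have := hle i
          rw [Finsupp.single_eq_same, he] at this
          omega
        · have hle : Finsupp.single i 1 ≤ e := by
            rw [Finsupp.single_le_iff]; omega
          rw [if_neg he, if_pos hle, add_zero, tsub_add_cancel_of_le hle]
      rw [hs]
      refine Submodule.add_mem_sup (Ideal.mem_span_singleton'.mpr ⟨s1, rfl⟩) ?_
      rw [ih]
      intro e he
      rw [hs0]
      split_ifs with h0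
      · apply h
        intro j hj
        rcases Finset.mem_insert.mp hj with rfl | hj
        · exact h0
        · exact he j hj
      · rfl

open MvPowerSeries in
theorem weaklyRegular_X (l : List σ) (hl : l.Nodup) :
    IsWeaklyRegular (MvPowerSeries σ k) (l.map (MvPowerSeries.X : σ → MvPowerSeries σ k)) := by
  constructor
  intro i hi
  rw [List.length_map] at hi
  rw [isSMulRegular_quotient_iff_mem_of_smul_mem]
  intro s hs
  simp only [smul_eq_mul, Ideal.mul_top, List.getElem_map] at hs ⊢
  have e1 : Ideal.ofList (List.take i (l.map (MvPowerSeries.X : σ → MvPowerSeries σ k))) =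
      Ideal.span ((MvPowerSeries.X : σ → MvPowerSeries σ k) '' ((l.take i).toFinset : Set σ)) := by
    unfold Ideal.ofList
    congr 1
    ext x
    rw [← List.map_take]
    simp only [Set.mem_ofPred_eq, List.mem_map, Set.mem_image, List.coe_toFinset]
  rw [e1, mem_span_X_iff] at hs ⊢
  have hni : l[i] ∉ l.take i := by
    intro hmem
    obtain ⟨j, hj, hji⟩ := List.mem_take_iff_getElem.mp hmem
    have := (List.Nodup.getElem_inj_iff hl).mp hji
    omega
  intro e he
  have h1 := hs (e + Finsupp.single l[i] 1) (by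
    intro j hj
    have hj' : j ∈ l.take i := by simpa using hj
    have hne : j ≠ l[i] := by rintro rfl; exact hni hj'
    rw [Finsupp.add_apply, he j hj, Finsupp.single_eq_of_ne hne, add_zero])
  rwa [X_mul, X_def, coeff_add_mul_monomial, mul_one] at h1

end PS




section Approx

variable {k S : Type*} [Field k] [CommRing S] [Algebra k S] [IsLocalRing S] {n : ℕ}

theorem exists_adjoin_sub_mem (x : Fin n → S) (hx : maximalIdeal S = Ideal.span (Set.range x))
    (hres : ∀ s : S, ∃ c : k, s - algebraMap k S c ∈ maximalIdeal S) (r : ℕ) :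
    ∀ s : S, ∃ p ∈ Algebra.adjoin k (Set.range x), s - p ∈ (maximalIdeal S) ^ r := by
  induction r with
  | zero =>
    intro s
    exact ⟨0, Subalgebra.zero_mem _, by simp⟩
  | succ r ih =>
    intro s
    obtain ⟨c, hc⟩ := hres s
    rw [hx, Ideal.mem_span_range_iff_exists_fun] at hc
    obtain ⟨u, hu⟩ := hc
    choose p hp hp2 using fun i => ih (u i)
    refine ⟨algebraMap k S c + ∑ i, p i * x i, ?_, ?_⟩
    · refine Subalgebra.add_mem _ (Subalgebra.algebraMap_mem _ c) (Subalgebra.sum_mem _ ?_)
      intro i _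
      exact Subalgebra.mul_mem _ (hp i) (Algebra.subset_adjoin ⟨i, rfl⟩)
    · have e : s - (algebraMap k S c + ∑ i, p i * x i) = ∑ i, (u i - p i) * x i := by
        rw [← sub_sub, ← hu, ← Finset.sum_sub_distrib]
        exact Finset.sum_congr rfl fun i _ => by ring
      rw [e, pow_succ]
      refine Ideal.sum_mem _ fun i _ => Ideal.mul_mem_mul (hp2 i) ?_
      rw [hx]
      exact Ideal.subset_span ⟨i, rfl⟩

theorem exists_fg_sub_mem (x : Fin n → S) (hx : maximalIdeal S = Ideal.span (Set.range x))
    (hres : ∀ s : S, ∃ c : k, s - algebraMap k S c ∈ maximalIdeal S) (r : ℕ) :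
    ∃ V : Submodule k S, V.FG ∧ ∀ s : S, ∃ v ∈ V, s - v ∈ (maximalIdeal S) ^ r := by
  induction r with
  | zero => exact ⟨⊥, Submodule.fg_bot, fun s => ⟨0, Submodule.zero_mem _, by simp⟩⟩
  | succ r ih =>
    obtain ⟨V, hV, hV2⟩ := ih
    refine ⟨Submodule.span k {1} ⊔ ⨆ i : Fin n, V.map (LinearMap.mulLeft k (x i)), ?_, ?_⟩
    · refine Submodule.FG.sup (Submodule.fg_span_singleton _) ?_
      exact Submodule.fg_iSup _ (fun i => hV.map _)
    · intro s
      obtain ⟨c, hc⟩ := hres s
      rw [hx, Ideal.mem_span_range_iff_exists_fun] at hc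
      obtain ⟨u, hu⟩ := hc
      choose p hp hp2 using fun i => hV2 (u i)
      refine ⟨c • 1 + ∑ i, x i * p i, ?_, ?_⟩
      · refine Submodule.add_mem_sup
          (Submodule.smul_mem _ _ (Submodule.mem_span_singleton_self _)) ?_
        refine Submodule.sum_mem _ fun i _ => ?_
        exact Submodule.mem_iSup_of_mem i ⟨p i, hp i, rfl⟩
      · have e : s - (c • 1 + ∑ i, x i * p i) = ∑ i, (u i - p i) * x i := by
          rw [← sub_sub, ← Algebra.algebraMap_eq_smul_one, ← hu, ← Finset.sum_sub_distrib]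
          exact Finset.sum_congr rfl fun i _ => by ring
        rw [e, pow_succ]
        refine Ideal.sum_mem _ fun i _ => Ideal.mul_mem_mul (hp2 i) ?_
        rw [hx]
        exact Ideal.subset_span ⟨i, rfl⟩

theorem finite_quot_pow (x : Fin n → S) (hx : maximalIdeal S = Ideal.span (Set.range x))
    (hres : ∀ s : S, ∃ c : k, s - algebraMap k S c ∈ maximalIdeal S) (r : ℕ) :
    Module.Finite k (S ⧸ (maximalIdeal S) ^ r) := by
  obtain ⟨V, hV, hV2⟩ := exists_fg_sub_mem x hx hres r
  have : Module.Finite k V := Module.Finite.iff_fg.mpr hV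
  refine Module.Finite.of_surjective
    ((Ideal.Quotient.mkₐ k ((maximalIdeal S) ^ r)).toLinearMap ∘ₗ V.subtype) ?_
  intro q
  obtain ⟨s, rfl⟩ := Ideal.Quotient.mk_surjective q
  obtain ⟨v, hv, hsv⟩ := hV2 s
  refine ⟨⟨v, hv⟩, ?_⟩
  change Ideal.Quotient.mk _ v = Ideal.Quotient.mk _ s
  rw [eq_comm, Ideal.Quotient.eq]
  exact hsv

/-- An endomorphism of `S` mapping the maximal ideal into itself and fixing the generators modulo
`I` is the identity modulo `I + m^r`. -/
theorem sub_mem_of_gens (φ : S →ₐ[k] S) (x : Fin n → S)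
    (hx : maximalIdeal S = Ideal.span (Set.range x))
    (hres : ∀ s : S, ∃ c : k, s - algebraMap k S c ∈ maximalIdeal S)
    (hφ : ∀ i, φ (x i) ∈ maximalIdeal S)
    (I : Ideal S) (hI : ∀ i, φ (x i) - x i ∈ I) (r : ℕ) (s : S) :
    φ s - s ∈ I ⊔ (maximalIdeal S) ^ r := by
  obtain ⟨p, hp, hsp⟩ := exists_adjoin_sub_mem x hx hres r s
  have h1 : φ p - p ∈ I := by
    clear hsp
    induction hp using Algebra.adjoin_induction with
    | mem y hy =>
      obtain ⟨i, rfl⟩ := hy
      exact hI i
    | algebraMap c => simp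
    | add y z _ _ hy hz =>
      have : φ (y + z) - (y + z) = (φ y - y) + (φ z - z) := by rw [map_add]; ring
      rw [this]; exact I.add_mem hy hz
    | mul y z _ _ hy hz =>
      have : φ (y * z) - (y * z) = (φ y - y) * φ z + y * (φ z - z) := by rw [map_mul]; ring
      rw [this]; exact I.add_mem (I.mul_mem_right _ hy) (I.mul_mem_left _ hz)
  have h2 : φ (s - p) ∈ (maximalIdeal S) ^ r := by
    have h3 : (maximalIdeal S) ≤ (maximalIdeal S).comap φ := by
      conv_lhs => rw [hx]
      rw [Ideal.span_le]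
      rintro _ ⟨i, rfl⟩
      exact hφ i
    have h4 : (maximalIdeal S) ^ r ≤ ((maximalIdeal S) ^ r).comap φ :=
      (Ideal.pow_right_mono h3 r).trans (Ideal.le_comap_pow _ r)
    exact h4 hsp
  have h5 : φ s - s = (φ p - p) + (φ (s - p) - (s - p)) := by rw [map_sub]; ring
  rw [h5]
  exact Submodule.add_mem_sup h1 (Ideal.sub_mem _ h2 hsp)

end Approx

section Span

variable {k S : Type*} [Field k] [CommRing S] [Algebra k S] {n : ℕ}

theorem span_le_of_comb (v w : Fin n → S) (Q : Matrix (Fin n) (Fin n) k)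
    (h : ∀ i, w i = ∑ j, Q i j • v j) : Ideal.span (Set.range w) ≤ Ideal.span (Set.range v) := by
  rw [Ideal.span_le]
  rintro _ ⟨i, rfl⟩
  rw [SetLike.mem_coe, h i]
  refine Ideal.sum_mem _ fun j _ => ?_
  rw [Algebra.smul_def]
  exact Ideal.mul_mem_left _ _ (Ideal.subset_span ⟨j, rfl⟩)

theorem comb_inv (v w : Fin n → S) (Q P : Matrix (Fin n) (Fin n) k) (hPQ : P * Q = 1)
    (h : ∀ i, w i = ∑ j, Q i j • v j) : ∀ i, v i = ∑ j, P i j • w j := by
  intro i
  have h1 : ∑ j, P i j • w j = ∑ l, (P * Q) i l • v l := by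
    simp only [h, Finset.smul_sum, smul_smul, Matrix.mul_apply, Finset.sum_smul]
    rw [Finset.sum_comm]
  rw [h1, hPQ]
  simp [Matrix.one_apply, ite_smul]

theorem span_eq_of_comb (v w : Fin n → S) (Q P : Matrix (Fin n) (Fin n) k) (hPQ : P * Q = 1)
    (h : ∀ i, w i = ∑ j, Q i j • v j) : Ideal.span (Set.range w) = Ideal.span (Set.range v) :=
  le_antisymm (span_le_of_comb v w Q h) (span_le_of_comb w v P (comb_inv v w Q P hPQ h))

end Span



section Diag

open Module Polynomial in
theorem exists_diag {n : ℕ} (M : Matrix (Fin n) (Fin n) ℂ) (m : ℕ) (hm : m ≠ 0) (hM : M ^ m = 1) :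
    ∃ (Q P : Matrix (Fin n) (Fin n) ℂ) (c : Fin n → ℂ), P * Q = 1 ∧ Q * P = 1 ∧
      ∀ i j, (Q * M) i j = c i * Q i j := by
  classical
  let f : Module.End ℂ (Fin n → ℂ) := Matrix.toLin' M.transpose
  have hf : f ^ m = 1 := by
    have h1 : f ^ m = Matrix.toLin' (M.transpose ^ m) := (Matrix.toLin'_pow _ _).symm
    rw [h1, ← Matrix.transpose_pow, hM, Matrix.transpose_one, Matrix.toLin'_one]
    rfl
  have hss : f.IsSemisimple := by
    apply Module.End.isSemisimple_of_squarefree_aeval_eq_zero (p := (X ^ m - C 1 : ℂ[X]))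
    · apply Polynomial.Separable.squarefree
      exact Polynomial.separable_X_pow_sub_C 1 (by exact_mod_cast hm) one_ne_zero
    · simp [hf]
  let eigenDecomp := DirectSum.isInternal_submodule_of_iSupIndep_of_iSup_eq_top
    f.eigenspaces_iSupIndep hss.iSup_eigenspace_eq_top
  let I := (ν : ℂ) × Fin (finrank ℂ (f.eigenspace ν))
  let v : Basis I ℂ (Fin n → ℂ) := eigenDecomp.collectedBasis fun μ ↦ finBasis ℂ (f.eigenspace μ)
  have : Fintype I := FiniteDimensional.fintypeBasisIndex v
  have hsv (i : I) : f (v i) = i.1 • v i :=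
    Module.End.mem_eigenspace_iff.mp (eigenDecomp.collectedBasis_mem _ i)
  have hcard : Fintype.card I = Fintype.card (Fin n) := by
    rw [← Module.finrank_eq_card_basis v, Fintype.card_fin, Module.finrank_fin_fun]
  let e : I ≃ Fin n := Fintype.equivOfCardEq hcard
  let w : Basis (Fin n) ℂ (Fin n → ℂ) := v.reindex e
  let Q : Matrix (Fin n) (Fin n) ℂ := fun i j => w i j
  have hQu : IsUnit Q.det := by
    have h1 : Q.transpose = (Pi.basisFun ℂ (Fin n)).toMatrix w := by
      ext i j
      simp [Q, Basis.toMatrix_apply]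
      all_goals rfl
    rw [← Matrix.det_transpose, h1]
    have := (Pi.basisFun ℂ (Fin n)).invertibleToMatrix w
    exact (Matrix.isUnit_iff_isUnit_det _).mp (isUnit_of_invertible _)
  refine ⟨Q, Q⁻¹, fun i => (e.symm i).1, Matrix.nonsing_inv_mul _ hQu, Matrix.mul_nonsing_inv _ hQu, ?_⟩
  intro i j
  have h2 := congrFun (hsv (e.symm i)) j
  have h3 : ∀ j, Q i j = v (e.symm i) j := by
    intro j
    simp [Q, w]
  rw [Matrix.mul_apply]
  simp only [h3]
  simp only [f, Matrix.toLin'_apply, Matrix.mulVec, dotProduct, Matrix.transpose_apply, Pi.smul_apply,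
    smul_eq_mul] at h2
  rw [← h2]
  exact Finset.sum_congr rfl fun l _ => mul_comm _ _

end Diag


section Main

variable {k S : Type*} [Field k] [Infinite k] [CommRing S] [Algebra k S] [IsLocalRing S]
  [IsNoetherianRing S] {n : ℕ}

theorem main_abstract (x : Fin n → S) (hx : maximalIdeal S = Ideal.span (Set.range x))
    (hxr : Reg x) (hres : ∀ s : S, ∃ c : k, s - algebraMap k S c ∈ maximalIdeal S)
    (φ : S →ₐ[k] S) (M : Matrix (Fin n) (Fin n) k) (hφx : ∀ i, φ (x i) = ∑ j, M i j • x j)
    (f : Fin n → S) (hfm : ∀ i, f i ∈ maximalIdeal S) (hf : ∀ i, φ (f i) = ∑ j, M i j • f j)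
    (Q P : Matrix (Fin n) (Fin n) k) (c : Fin n → k) (hPQ : P * Q = 1)
    (hQM : ∀ i j, (Q * M) i j = c i * Q i j)
    (hsop : ∃ r : ℕ, (maximalIdeal S) ^ r ≤ Ideal.span (Set.range f))
    (h : Ideal.span (Set.range f) ≤ (Ideal.span (Set.range f)).comap φ) :
    trQ φ _ h = (Module.finrank k (S ⧸ Ideal.span (Set.range f ∪
      Set.range (fun i => ∑ j, (M - 1) i j • x j))) : k) := by
  classical
  -- semi-invariant combinations
  have hcomb : ∀ v : Fin n → S, (∀ i, φ (v i) = ∑ j, M i j • v j) →
      ∀ i, φ (∑ j, Q i j • v j) = c i • ∑ j, Q i j • v j := by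
    intro v hv i
    rw [map_sum]
    simp only [map_smul, hv, Finset.smul_sum, smul_smul]
    rw [Finset.sum_comm]
    refine Finset.sum_congr rfl fun l _ => ?_
    rw [← Finset.sum_smul, ← hQM, Matrix.mul_apply]
  let g : Fin n → S := fun i => ∑ j, Q i j • f j
  let y : Fin n → S := fun i => ∑ j, Q i j • x j
  have hg : ∀ i, φ (g i) = c i • g i := hcomb f hf
  have hy : ∀ i, φ (y i) = c i • y i := hcomb x hφx
  have sg : Ideal.span (Set.range g) = Ideal.span (Set.range f) :=
    span_eq_of_comb f g Q P hPQ (fun i => rfl)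
  have sy : Ideal.span (Set.range y) = Ideal.span (Set.range x) :=
    span_eq_of_comb x y Q P hPQ (fun i => rfl)
  have hxm : ∀ i, x i ∈ maximalIdeal S := by
    intro i; rw [hx]; exact Ideal.subset_span ⟨i, rfl⟩
  have hym : ∀ i, y i ∈ maximalIdeal S := by
    intro i; rw [hx, ← sy]; exact Ideal.subset_span ⟨i, rfl⟩
  have hgm : ∀ i, g i ∈ maximalIdeal S := by
    intro i
    refine Ideal.sum_mem _ fun j _ => smul_mem_max _ (hfm j)
  have hxsop : SOP x := ⟨hxm, 1, by rw [pow_one, hx]⟩
  have hgsop : SOP g := ⟨hgm, by rw [sg]; exact hsop⟩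
  let b : Fin n → S := fun i => if c i = 1 then g i else y i
  have hbg : ∀ i, c i = 1 → g i = b i := by
    intro i hi; simp only [b, if_pos hi]
  have hby : ∀ i, c i ≠ 1 → b i = y i := by
    intro i hi; simp only [b, if_neg hi]
  -- the ideal generated by (M - 1) x
  let z : Fin n → S := fun i => ∑ j, (M - 1) i j • x j
  have hz : ∀ i, z i = φ (x i) - x i := by
    intro i
    simp only [z, Matrix.sub_apply, sub_smul, Finset.sum_sub_distrib, hφx]
    congr 1
    simp [Matrix.one_apply, ite_smul]
  have hQz : ∀ i, ∑ j, Q i j • z j = (c i - 1) • y i := by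
    intro i
    have : ∑ j, Q i j • z j = φ (y i) - y i := by
      simp only [y, map_sum, map_smul, hz, smul_sub, Finset.sum_sub_distrib]
    rw [this, hy, sub_smul, one_smul]
  have sz : Ideal.span (Set.range (fun i => (c i - 1) • y i)) = Ideal.span (Set.range z) :=
    span_eq_of_comb z _ Q P hPQ (fun i => (hQz i).symm)
  -- z is in the ideal of b
  have hzb : Ideal.span (Set.range z) ≤ Ideal.span (Set.range b) := by
    rw [← sz, Ideal.span_le]
    rintro _ ⟨i, rfl⟩
    by_cases hi : c i = 1
    · simp [hi]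
    · simp only [SetLike.mem_coe]
      rw [← hby i hi, Algebra.smul_def]
      exact Ideal.mul_mem_left _ _ (Ideal.subset_span ⟨i, rfl⟩)
  have hφm : ∀ i, φ (x i) ∈ maximalIdeal S := by
    intro i
    rw [hφx]
    exact Ideal.sum_mem _ fun j _ => smul_mem_max _ (hxm j)
  have happrox : ∀ (r : ℕ) (s : S), φ s - s ∈ Ideal.span (Set.range z) ⊔ (maximalIdeal S) ^ r :=
    fun r s => sub_mem_of_gens φ x hx hres hφm (Ideal.span (Set.range z))
      (fun i => by rw [← hz]; exact Ideal.subset_span ⟨i, rfl⟩) r s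
  -- g is in the ideal of b
  have hgb : Ideal.span (Set.range g) ≤ Ideal.span (Set.range b) := by
    obtain ⟨r, hr⟩ := hgsop.2
    have hfg : (Ideal.span (Set.range g)).FG := IsNoetherian.noetherian _
    refine Submodule.le_of_le_smul_of_le_jacobson_bot hfg
      (IsLocalRing.maximalIdeal_le_jacobson _) ?_
    rw [Ideal.span_le]
    rintro _ ⟨i, rfl⟩
    by_cases hi : c i = 1
    · exact Ideal.mem_sup_left (by rw [hbg i hi]; exact Ideal.subset_span ⟨i, rfl⟩)
    · have h1 := happrox (r + 1) (g i)
      have h2 : Ideal.span (Set.range z) ⊔ (maximalIdeal S) ^ (r + 1) ≤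
          Ideal.span (Set.range b) ⊔ maximalIdeal S • Ideal.span (Set.range g) := by
        refine sup_le_sup hzb ?_
        rw [pow_succ', smul_eq_mul]
        exact Ideal.mul_mono_right hr
      have h3 := h2 h1
      have h4 : g i = algebraMap k S (c i - 1)⁻¹ * (φ (g i) - g i) := by
        rw [hg, ← Algebra.smul_def]
        have : c i • g i - g i = (c i - 1) • g i := by rw [sub_smul, one_smul]
        rw [this, smul_smul, inv_mul_cancel₀ (sub_ne_zero.mpr hi), one_smul]
      rw [SetLike.mem_coe, h4]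
      exact Ideal.mul_mem_left _ _ h3
  have hbm : ∀ i, b i ∈ maximalIdeal S := by
    intro i
    by_cases hi : c i = 1
    · rw [← hbg i hi]; exact hgm i
    · rw [hby i hi]; exact hym i
  have hbsop : SOP b := by
    obtain ⟨r, hr⟩ := hgsop.2
    exact ⟨hbm, r, hr.trans hgb⟩
  have hb : ∀ i, φ (b i) = c i • b i := by
    intro i
    by_cases hi : c i = 1
    · rw [← hbg i hi]; exact hg i
    · rw [hby i hi]; exact hy i
  have htr := trace_eq_of_sop φ c (finite_quot_pow x hx hres) hxsop hxr hgsop hbsop hg hb hbg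
    (range_stable φ g c hg) (range_stable φ b c hb)
  have sb : Ideal.span (Set.range b) = Ideal.span (Set.range f ∪ Set.range z) := by
    rw [Ideal.span_union]
    apply le_antisymm
    · rw [Ideal.span_le]
      rintro _ ⟨i, rfl⟩
      rw [SetLike.mem_coe]
      by_cases hi : c i = 1
      · refine Ideal.mem_sup_left ?_
        rw [← sg, ← hbg i hi]
        exact Ideal.subset_span ⟨i, rfl⟩
      · refine Ideal.mem_sup_right ?_
        rw [hby i hi, ← sz]
        have h4 : y i = algebraMap k S (c i - 1)⁻¹ * ((c i - 1) • y i) := by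
          rw [← Algebra.smul_def, smul_smul, inv_mul_cancel₀ (sub_ne_zero.mpr hi), one_smul]
        rw [h4]
        exact Ideal.mul_mem_left _ _ (Ideal.subset_span ⟨i, rfl⟩)
    · refine sup_le ?_ hzb
      rw [← sg]
      exact hgb
  rw [trQ_congr φ sg.symm h (range_stable φ g c hg), htr]
  have hid : (Ideal.quotientMapₐ (Ideal.span (Set.range b)) φ (range_stable φ b c hb)).toLinearMap
      = LinearMap.id := by
    refine LinearMap.ext fun v => ?_
    obtain ⟨s, rfl⟩ := Ideal.Quotient.mk_surjective v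
    change Ideal.Quotient.mk _ (φ s) = Ideal.Quotient.mk _ s
    rw [Ideal.Quotient.eq]
    obtain ⟨r, hr⟩ := hbsop.2
    exact (sup_le hzb hr) (happrox r s)
  have hfinb : Module.Finite k (S ⧸ Ideal.span (Set.range b)) := by
    obtain ⟨r, hr⟩ := hbsop.2
    have := finite_quot_pow (k := k) x hx hres r
    exact Module.Finite.of_surjective (Ideal.Quotient.factorₐ k hr).toLinearMap
        (Ideal.Quotient.factor_surjective hr)
  rw [trQ, hid, LinearMap.trace_id, sb]

end Main

section Final

variable {n : ℕ}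

theorem ps_max : maximalIdeal (MvPowerSeries (Fin n) ℂ) =
    Ideal.span (Set.range (MvPowerSeries.X : Fin n → MvPowerSeries (Fin n) ℂ)) := by
  ext s
  have h1 : s ∈ maximalIdeal (MvPowerSeries (Fin n) ℂ) ↔ MvPowerSeries.constantCoeff s = 0 := by
    rw [mem_maximalIdeal, mem_nonunits_iff, MvPowerSeries.isUnit_iff_constantCoeff,
      isUnit_iff_ne_zero, not_not]
  have h2 : Set.range (MvPowerSeries.X : Fin n → MvPowerSeries (Fin n) ℂ) =
      MvPowerSeries.X '' ((Finset.univ : Finset (Fin n)) : Set (Fin n)) := by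
    simp
  rw [h1, h2, mem_span_X_iff]
  constructor
  · intro h e he
    have : e = 0 := by
      ext i; simpa using he i (Finset.mem_univ i)
    rw [this]
    exact h
  · intro h
    exact h 0 (by simp)

theorem ps_reg : Reg (MvPowerSeries.X : Fin n → MvPowerSeries (Fin n) ℂ) :=
  weaklyRegular_X _ (List.nodup_finRange n)

theorem ps_res (s : MvPowerSeries (Fin n) ℂ) :
    ∃ c : ℂ, s - algebraMap ℂ (MvPowerSeries (Fin n) ℂ) c ∈
      maximalIdeal (MvPowerSeries (Fin n) ℂ) := by
  refine ⟨MvPowerSeries.constantCoeff s, ?_⟩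
  rw [mem_maximalIdeal, mem_nonunits_iff, MvPowerSeries.isUnit_iff_constantCoeff,
      isUnit_iff_ne_zero, not_not, map_sub, MvPowerSeries.algebraMap_apply,
      MvPowerSeries.constantCoeff_C, Algebra.algebraMap_self, RingHom.id_apply, sub_self]

theorem sop_of_finite {k S : Type*} [Field k] [CommRing S] [Algebra k S] [IsLocalRing S]
    (I : Ideal S) [Module.Finite k (S ⧸ I)] : ∃ r : ℕ, (maximalIdeal S) ^ r ≤ I := by
  have : IsArtinianRing (S ⧸ I) := IsArtinianRing.of_finite k (S ⧸ I)
  obtain ⟨r, hr⟩ := IsArtinianRing.isNilpotent_jacobson_bot (R := S ⧸ I)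
  refine ⟨r, ?_⟩
  have h1 : (maximalIdeal S).map (Ideal.Quotient.mk I) ≤ Ideal.jacobson ⊥ := by
    refine le_sInf ?_
    rintro M ⟨-, hM⟩
    rw [Ideal.map_le_iff_le_comap]
    have := Ideal.comap_isMaximal_of_surjective (Ideal.Quotient.mk I)
      Ideal.Quotient.mk_surjective (K := M)
    rw [eq_maximalIdeal this]
  have h2 : ((maximalIdeal S) ^ r).map (Ideal.Quotient.mk I) = ⊥ := by
    rw [Ideal.map_pow, eq_bot_iff]
    exact (Ideal.pow_right_mono h1 r).trans hr.le
  rwa [Ideal.map_eq_bot_iff_le_ker, Ideal.mk_ker] at h2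

end Final

end Pool.Agent.Lib.MP80eea4
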